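import Mathlib

/-!
# A progression of length `p` contains a number coprime to `fib p` (helper454, job FW-COP)
-/

set_option autoImplicit false

namespace Pool.Agent.Y454.FWCOP

theorem docagne (i e : ℕ) : (Nat.fib (i + e) : ℤ) * Nat.fib (i + 1) -
    Nat.fib i * Nat.fib (i + e + 1) = (-1) ^ i * Nat.fib e := by
  induction i with
  | zero => simp
  | succ i ih =>
    have h1 : (Nat.fib (i + 1 + 1) : ℤ) = Nat.fib i + Nat.fib (i + 1) := by
      exact_mod_cast Nat.fib_add_two
    have h2 : (Nat.fib (i + 1 + e + 1) : ℤ) = Nat.fib (i + e) + Nat.fib (i + e + 1) := by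
      rw [show i + 1 + e + 1 = i + e + 2 by ring]
      exact_mod_cast Nat.fib_add_two
    have h3 : i + 1 + e = i + e + 1 := by ring
    rw [h1, h2, h3, pow_succ]
    linear_combination -ih

theorem prime_ge (p : ℕ) (hp : p.Prime) (P : ℕ) (hP : P.Prime) (hd : P ∣ Nat.fib p) :
    p ≤ P + 1 := by
  classical
  have : Fact P.Prime := ⟨hP⟩
  obtain ⟨x, y, hxy, hf⟩ := Fintype.exists_ne_map_eq_of_card_lt
    (fun m : Fin (P + 2) => if (Nat.fib (m + 1) : ZMod P) = 0 then none
      else some ((Nat.fib m : ZMod P) / Nat.fib (m + 1)))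
    (by rw [Fintype.card_option, ZMod.card, Fintype.card_fin]; omega)
  have key : ∀ i j : ℕ, i < j → j < P + 2 →
      ((if (Nat.fib (i + 1) : ZMod P) = 0 then none
        else some ((Nat.fib i : ZMod P) / Nat.fib (i + 1)) : Option (ZMod P)) =
      if (Nat.fib (j + 1) : ZMod P) = 0 then none
        else some ((Nat.fib j : ZMod P) / Nat.fib (j + 1))) → p ≤ P + 1 := by
    intro i j hij hj hfe
    obtain ⟨e, rfl⟩ : ∃ e, j = i + e := ⟨j - i, by omega⟩
    have h0 : (Nat.fib (i + e) : ZMod P) * Nat.fib (i + 1) -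
        Nat.fib i * Nat.fib (i + e + 1) = 0 := by
      by_cases h1 : (Nat.fib (i + 1) : ZMod P) = 0
      · by_cases h2 : (Nat.fib (i + e + 1) : ZMod P) = 0
        · rw [h1, h2]; ring
        · rw [if_pos h1, if_neg h2] at hfe
          exact absurd hfe (by simp)
      · by_cases h2 : (Nat.fib (i + e + 1) : ZMod P) = 0
        · rw [if_neg h1, if_pos h2] at hfe
          exact absurd hfe (by simp)
        · rw [if_neg h1, if_neg h2] at hfe
          have h3 := Option.some.inj hfe
          rw [div_eq_div_iff h1 h2] at h3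
          rw [h3]; ring
    have h4 : ((-1) ^ i * (Nat.fib e : ℤ) : ℤ) = ((Nat.fib (i + e) : ℤ) * Nat.fib (i + 1) -
        Nat.fib i * Nat.fib (i + e + 1)) := (docagne i e).symm
    have h5 := congrArg (Int.cast : ℤ → ZMod P) h4
    push_cast at h5
    rw [h0] at h5
    have h6 : (Nat.fib e : ZMod P) = 0 := by
      rcases mul_eq_zero.1 h5 with h | h
      · exact absurd h (pow_ne_zero _ (by simp))
      · exact h
    rw [ZMod.natCast_eq_zero_iff] at h6
    by_contra hcon
    have hep : e < p := by omega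
    have he0 : 0 < e := by omega
    have hc : Nat.gcd e p = 1 := by
      rw [Nat.gcd_comm]
      exact (hp.coprime_iff_not_dvd).2 (fun h => absurd (Nat.le_of_dvd he0 h) (by omega))
    have h7 : Nat.gcd (Nat.fib e) (Nat.fib p) = 1 := by
      rw [← Nat.fib_gcd, hc, Nat.fib_one]
    have h8 := Nat.dvd_gcd h6 hd
    rw [h7] at h8
    exact hP.one_lt.ne' (Nat.dvd_one.1 h8)
  rcases lt_or_gt_of_ne (fun h => hxy (Fin.ext h) : (x : ℕ) ≠ y) with h | h
  · exact key x y h y.2 hf
  · exact key y x h x.2 hf.symm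

theorem fib_le_two_pow (n : ℕ) : Nat.fib n ≤ 2 ^ n ∧ Nat.fib (n + 1) ≤ 2 ^ (n + 1) := by
  induction n with
  | zero => simp
  | succ n ih =>
    refine ⟨ih.2, ?_⟩
    rw [Nat.fib_add_two, pow_succ, pow_succ]
    have h1 := ih.1
    have h2 := ih.2
    rw [pow_succ] at h2
    omega

theorem t_COP (p : ℕ) (hp : p.Prime) (h17 : 17 ≤ p) (a d : ℤ)
    (hd : IsCoprime d (Nat.fib p : ℤ)) :
    ∃ i : ℕ, i < p ∧ IsCoprime (a + i * d) (Nat.fib p : ℤ) := by
  classical
  by_contra hcon
  push Not at hcon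
  have hfp : 0 < Nat.fib p := Nat.fib_pos.2 hp.pos
  set S : Finset ℕ := (Nat.fib p).primeFactors with hS
  have hSp : ∀ P ∈ S, P.Prime ∧ P ∣ Nat.fib p := fun P hP =>
    ⟨Nat.prime_of_mem_primeFactors hP, Nat.dvd_of_mem_primeFactors hP⟩
  have hge : ∀ P ∈ S, p ≤ P + 1 := fun P hP => prime_ge p hp P (hSp P hP).1 (hSp P hP).2
  have h1 : 16 ^ S.card ≤ Nat.fib p := by
    calc 16 ^ S.card = ∏ P ∈ S, 16 := by rw [Finset.prod_const]
      _ ≤ ∏ P ∈ S, P := Finset.prod_le_prod (fun _ _ => Nat.zero_le _) (fun P hP => by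
          have := hge P hP
          omega)
      _ ≤ Nat.fib p := Nat.le_of_dvd hfp (Nat.prod_primeFactors_dvd _)
  have h2 : 4 * S.card ≤ p := by
    have h3 : 2 ^ (4 * S.card) ≤ 2 ^ p := by
      rw [pow_mul]
      exact h1.trans (fib_le_two_pow p).1
    exact (Nat.pow_le_pow_iff_right (by norm_num)).1 h3
  have h3 : ∀ i, i < p → ∃ P ∈ S, (P : ℤ) ∣ a + i * d := by
    intro i hi
    have h4 := hcon i hi
    rw [Int.isCoprime_iff_gcd_eq_one] at h4
    obtain ⟨P, hP, hPd⟩ := Nat.exists_prime_and_dvd h4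
    have h5 : (P : ℤ) ∣ (Int.gcd (a + i * d) (Nat.fib p : ℤ) : ℤ) := by exact_mod_cast hPd
    have h6 : (P : ℤ) ∣ (Nat.fib p : ℤ) := h5.trans (Int.gcd_dvd_right _ _)
    refine ⟨P, ?_, h5.trans (Int.gcd_dvd_left _ _)⟩
    rw [hS, Nat.mem_primeFactors]
    exact ⟨hP, by exact_mod_cast h6, hfp.ne'⟩
  have h4 : Finset.range p ⊆ S.biUnion fun P =>
      (Finset.range p).filter fun i : ℕ => (P : ℤ) ∣ a + (i : ℤ) * d := by
    intro i hi
    obtain ⟨P, hP, hPd⟩ := h3 i (Finset.mem_range.1 hi)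
    exact Finset.mem_biUnion.2 ⟨P, hP, Finset.mem_filter.2 ⟨hi, hPd⟩⟩
  have h5 : ∀ P ∈ S, ((Finset.range p).filter fun i : ℕ => (P : ℤ) ∣ a + (i : ℤ) * d).card ≤ 2 := by
    intro P hP
    by_contra hc
    push Not at hc
    obtain ⟨i, hi, j, hj, k, hk, hij, hik, hjk⟩ := Finset.two_lt_card.1 hc
    rw [Finset.mem_filter, Finset.mem_range] at hi hj hk
    have hPd : (P : ℤ) ∣ (Nat.fib p : ℤ) := by exact_mod_cast (hSp P hP).2
    have hcop : IsCoprime (P : ℤ) d := (hd.of_isCoprime_of_dvd_right hPd).symm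
    have hle := hge P hP
    have hP2 := (hSp P hP).1.two_le
    have hdiff : ∀ x y : ℕ, x < p → y < p → x ≠ y → (P : ℤ) ∣ a + (x : ℤ) * d →
        (P : ℤ) ∣ a + (y : ℤ) * d → (x : ℤ) - y = P ∨ (x : ℤ) - y = -P := by
      intro x y hx hy hxy h6 h7
      have h8 : (P : ℤ) ∣ ((x : ℤ) - y) * d := by
        have h9 := dvd_sub h6 h7
        have e : a + (x : ℤ) * d - (a + (y : ℤ) * d) = ((x : ℤ) - y) * d := by ring
        rwa [e] at h9
      obtain ⟨m, hm⟩ := hcop.dvd_of_dvd_mul_right h8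
      have hxyz : (x : ℤ) - y ≠ 0 := by
        intro h; apply hxy; omega
      have hm0 : m ≠ 0 := by
        rintro rfl; apply hxyz; rw [hm, mul_zero]
      rcases lt_or_gt_of_ne hm0 with h | h
      · right
        by_contra hne
        have h10 : m ≤ -2 := by
          by_contra h11
          have : m = -1 := by omega
          subst this
          apply hne; rw [hm]; ring
        nlinarith
      · left
        by_contra hne
        have h10 : 2 ≤ m := by
          by_contra h11
          have : m = 1 := by omega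
          subst this
          apply hne; rw [hm]; ring
        nlinarith
    have d1 := hdiff i j hi.1 hj.1 hij hi.2 hj.2
    have d2 := hdiff j k hj.1 hk.1 hjk hj.2 hk.2
    have d3 := hdiff i k hi.1 hk.1 hik hi.2 hk.2
    omega
  have h6 : p ≤ 2 * S.card := by
    calc p = (Finset.range p).card := (Finset.card_range p).symm
      _ ≤ _ := Finset.card_le_card h4
      _ ≤ ∑ P ∈ S, ((Finset.range p).filter fun i : ℕ => (P : ℤ) ∣ a + (i : ℤ) * d).card :=
          Finset.card_biUnion_le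
      _ ≤ ∑ _P ∈ S, 2 := Finset.sum_le_sum h5
      _ = 2 * S.card := by rw [Finset.sum_const, smul_eq_mul, mul_comm]
  omega

end Pool.Agent.Y454.FWCOP
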